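import Pool.Graph.R_pool_sql_team_ae5b0c61.H40.Fac1
import Pool.Graph.R_pool_sql_team_ae5b0c61.H40.JzDefs5
import Pool.Agent.H628.Sq1

set_option autoImplicit false

namespace Pool.Agent.Results.MP_e3c3cf_lc.SquareOntoPart

open Pool.Agent.H40.Bspt Pool.Agent.H40.Jz Pool.Agent.H40.Js Pool.Agent.H628.Sq Set Filter

variable {M : Type} (E : M → M → Prop)

/-- `P` is a partition of `A`: its members are nonempty subsets of `A`, every element of `A` lies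
in a member, and two members with a common element are equal -/
def IsPart (A P : M) : Prop :=
  (∀ B, E B P → Sub E B A ∧ ∃ x, E x B) ∧ (∀ x, E x A → ∃ B, E B P ∧ E x B) ∧
    ∀ B C x, E B P → E C P → E x B → E x C → B = C

/-- `S` is the set of all ordered pairs of elements of `A` -/
def IsSq (A S : M) : Prop := ∀ p, E p S ↔ ∃ x y, E x A ∧ E y A ∧ IsPair E p x y

/-- `f` is a function from `S` onto `Q` -/
def IsSurj (f S Q : M) : Prop :=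
  (∀ p, E p f → ∃ x y, E x S ∧ E y Q ∧ IsPair E p x y) ∧
    (∀ x, E x S → ∃ y, App E f x y ∧ ∀ z, App E f x z → z = y) ∧
    ∀ y, E y Q → ∃ x, E x S ∧ App E f x y

instance : NF G := suppNF G (univ : Set A) fun _ _ _ => trivial

theorem ev {p : G → Prop} : (∀ᶠ g in NF.F, p g) ↔
    ∃ F : Set A, F.Finite ∧ F ⊆ univ ∧ ∀ g : G, (∀ y ∈ F, g • y = y) → p g := supp_iff

instance : Fx G A := ⟨fun a => ev.2 ⟨{a}, finite_singleton a, subset_univ _, fun _ h => h a rfl⟩⟩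

/-- the equivalence relation attached to a pair of points -/
def rl (a b x y : A) : Prop := x = y ∨ Equivalence (rel a b) ∧ rel a b x y

theorem rel_sm' (g : G) (a b x y : A) : rel (g • a) (g • b) (g • x) (g • y) ↔ rel a b x y :=
  ⟨fun h => by simpa using rel_sm g⁻¹ h, rel_sm g⟩

theorem eqv_sm (g : G) (a b : A) (h : Equivalence (rel a b)) :
    Equivalence (rel (g • a) (g • b)) := by
  have k : ∀ x y, rel (g • a) (g • b) x y ↔ rel a b (g⁻¹ • x) (g⁻¹ • y) := fun x y => by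
    rw [← rel_sm' g a b, smul_inv_smul, smul_inv_smul]
  exact ⟨fun x => (k _ _).2 (h.refl _), fun e => (k _ _).2 (h.symm ((k _ _).1 e)),
    fun e e' => (k _ _).2 (h.trans ((k _ _).1 e) ((k _ _).1 e'))⟩

theorem rl_sm (g : G) {a b x y : A} (h : rl a b x y) : rl (g • a) (g • b) (g • x) (g • y) :=
  h.imp (congrArg _) fun h => ⟨eqv_sm g a b h.1, rel_sm g h.2⟩

theorem rl_sm' (g : G) (a b x y : A) : rl (g • a) (g • b) (g • x) (g • y) ↔ rl a b x y :=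
  ⟨fun h => by simpa using rl_sm g⁻¹ h, rl_sm g⟩

theorem rl_eqv (a b : A) : Equivalence (rl a b) where
  refl _ := Or.inl rfl
  symm h := h.imp Eq.symm fun h => ⟨h.1, h.1.symm h.2⟩
  trans := by
    rintro x y z (rfl | h) (rfl | h')
    exacts [Or.inl rfl, Or.inr h', Or.inr h, Or.inr ⟨h.1, h.1.trans h.2 h'.2⟩]

/-- the class of `x` -/
def cl (a b x : A) : PS G A := ⟨{y | rl a b x y}, sym_of (ev.2 ⟨{a, b, x}, by simp,
  subset_univ _, fun g h y (e : rl a b x y) => by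
    have := rl_sm g e
    rwa [h a (by simp), h b (by simp), h x (by simp)] at this⟩)⟩

theorem cl_sm (g : G) (a b x : A) : g • cl a b x = cl (g • a) (g • b) (g • x) :=
  Subtype.ext (Set.ext fun y => by
    show rl a b x (g⁻¹ • y) ↔ rl (g • a) (g • b) (g • x) y
    rw [← rl_sm' g, smul_inv_smul])

/-- the partition attached to a pair of points -/
def pa (a b : A) : PS G (PS G A) := ⟨range (cl a b), sym_of (ev.2 ⟨{a, b}, by simp,
  subset_univ _, fun g h _ ⟨x, e⟩ => ⟨g • x, by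
    rw [← e, cl_sm, h a (by simp), h b (by simp)]⟩⟩)⟩

theorem pa_sm (g : G) (a b : A) : g • pa a b = pa (g • a) (g • b) :=
  Subtype.ext (Set.ext fun X => by
    show g⁻¹ • X ∈ range (cl a b) ↔ X ∈ range (cl (g • a) (g • b))
    constructor
    · rintro ⟨x, e⟩
      exact ⟨g • x, by rw [← cl_sm, e, smul_inv_smul]⟩
    · rintro ⟨x, rfl⟩
      exact ⟨g⁻¹ • x, by rw [cl_sm, inv_smul_smul, inv_smul_smul]⟩)

/-- a symmetric family of symmetric sets is a partition -/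
def Pt (p : PS G (PS G A)) : Prop :=
  (∀ B ∈ p.1, B.1.Nonempty) ∧ (∀ x, ∃ B ∈ p.1, x ∈ B.1) ∧
    ∀ B ∈ p.1, ∀ C ∈ p.1, ∀ x, x ∈ B.1 → x ∈ C.1 → B = C

theorem pt_pa (a b : A) : Pt (pa a b) := by
  refine ⟨?_, fun x => ⟨_, ⟨x, rfl⟩, (rl_eqv a b).refl x⟩, ?_⟩
  · rintro _ ⟨x, rfl⟩
    exact ⟨x, (rl_eqv a b).refl x⟩
  · rintro _ ⟨x, rfl⟩ _ ⟨y, rfl⟩ z h h'
    exact Subtype.ext (Set.ext fun w =>
      ⟨fun e => (rl_eqv a b).trans h' ((rl_eqv a b).trans ((rl_eqv a b).symm h) e),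
        fun e => (rl_eqv a b).trans h ((rl_eqv a b).trans ((rl_eqv a b).symm h') e)⟩)

theorem pt_sm (g : G) {p : PS G (PS G A)} (h : Pt p) : Pt (g • p) := by
  obtain ⟨h1, h2, h3⟩ := h
  refine ⟨fun B hB => ?_, fun x => ?_, fun B hB C hC x hx hx' => ?_⟩
  · obtain ⟨x, hx⟩ := h1 (g⁻¹ • B) hB
    refine ⟨g • x, ?_⟩
    have : g⁻¹⁻¹ • x ∈ B.1 := hx
    rwa [inv_inv] at this
  · obtain ⟨B, hB, hx⟩ := h2 (g⁻¹ • x)
    exact ⟨g • B, by show g⁻¹ • g • B ∈ p.1; rwa [inv_smul_smul], hx⟩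
  · refine smul_left_cancel g⁻¹ (h3 _ hB _ hC (g⁻¹ • x) ?_ ?_)
    · exact smul_mem.2 hx
    · exact smul_mem.2 hx'

theorem pa_surj {p : PS G (PS G A)} (h : Pt p) : ∃ a b, pa a b = p := by
  obtain ⟨h1, h2, h3⟩ := h
  let R : A → A → Prop := fun x y => ∃ B ∈ p.1, x ∈ B.1 ∧ y ∈ B.1
  have hR : Equivalence R := ⟨fun x => (h2 x).imp fun B h => ⟨h.1, h.2, h.2⟩,
    fun ⟨B, h, hx, hy⟩ => ⟨B, h, hy, hx⟩, fun {x y z} ⟨B, h, hx, hy⟩ ⟨C, h', hy', hz⟩ =>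
      ⟨B, h, hx, h3 C h' B h y hy' hy ▸ hz⟩⟩
  obtain ⟨F, f1, -, f2⟩ := ev.1 (ps_fix p)
  obtain ⟨n, hn⟩ : ∃ n, ∀ a ∈ F, a.1 < n := by
    obtain ⟨n, hn⟩ := (f1.image Sigma.fst).bddAbove
    exact ⟨n + 1, fun a ha => Nat.lt_succ_of_le (hn ⟨a, ha, rfl⟩)⟩
  have hI : Inv n R := ⟨hR, fun g hg x y ⟨B, h, hx, hy⟩ => ⟨g • B, by
    have e := f2 g fun a ha => hg a (hn a ha)
    rw [← e]
    show g⁻¹ • g • B ∈ p.1
    rwa [inv_smul_smul], smul_mem.2 hx, smul_mem.2 hy⟩⟩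
  obtain ⟨a, b, hab⟩ := rel_ex hI
  have hrl : ∀ x y, rl a b x y ↔ R x y := fun x y => by
    refine ⟨?_, fun e => Or.inr ⟨hab ▸ hR, hab ▸ e⟩⟩
    rintro (rfl | h)
    exacts [hR.refl _, hab ▸ h.2]
  have key : ∀ x (B : PS G A), B ∈ p.1 → x ∈ B.1 → cl a b x = B := fun x B hB hx =>
    Subtype.ext (Set.ext fun y => (hrl x y).trans ⟨fun ⟨C, h, hx', hy⟩ =>
      h3 C h B hB x hx' hx ▸ hy, fun hy => ⟨B, hB, hx, hy⟩⟩)
  refine ⟨a, b, Subtype.ext (Set.ext fun B => ⟨?_, fun hB => ?_⟩)⟩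
  · rintro ⟨x, rfl⟩
    obtain ⟨B, hB, hx⟩ := h2 x
    rwa [key x B hB hx]
  · obtain ⟨x, hx⟩ := h1 B hB
    exact ⟨x, key x B hB hx⟩

theorem a_inf : Infinite A := by
  refine Infinite.of_injective (fun n : ℕ => pt n 0) fun m n e => ?_
  exact congrArg Sigma.fst e

/-- There is a model of ZF with an infinite set `A` and a surjection from `A × A` onto the set of
all partitions of `A`. -/
theorem result : ∃ (M : Type) (E : M → M → Prop), IsZF E ∧ ∃ A S Q f,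
    ¬ IsFin E A ∧ IsSq E A S ∧ (∀ P, E P Q ↔ IsPart E A P) ∧ IsSurj E f S Q := by
  obtain ⟨J⟩ := ex_js (Λ := G) (A := A) Fx.fx
  let F : PS G (El G A (.p (.p .a .a) (.w (.w .a)))) := ps {p | p.2 = pa p.1.1 p.1.2} (sym_all (by
    rintro g ⟨⟨a, b⟩, z⟩ h
    exact (congrArg (fun q : PS G (PS G A) => g • q) h).trans (pa_sm g a b)))
  let Q : PS G (El G A (.w (.w .a))) := ps {p | Pt p} (sym_all fun g p h => pt_sm g h)
  have aF : ∀ {a b}, App J.E (J.ν (.w _) F) a b ↔ ∃ x y, a = J.ν (.p .a .a) (x, y) ∧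
      b = J.fA (pa x y) := J.app_iff.trans ⟨by
        rintro ⟨⟨x, y⟩, z, e, rfl, rfl⟩
        obtain rfl : z = pa x y := e
        exact ⟨x, y, rfl, rfl⟩, fun ⟨x, y, a, b⟩ => ⟨(x, y), pa x y, rfl, a, b⟩⟩
  refine ⟨J.M, J.E, J.zf, J.sA unA, J.ν (.w (.p .a .a)) (un _), J.ν (.w (.w (.w .a))) Q,
    J.ν (.w _) F, ?_, fun p => ⟨fun h => ?_, ?_⟩, fun P => ⟨fun h => ?_, fun h => ?_⟩, ?_, ?_, ?_⟩
  · rw [J.finA]
    have := a_inf
    exact infinite_univ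
  · obtain ⟨⟨x, y⟩, -, rfl⟩ := (J.mem _ _ _).1 h
    exact ⟨J.nA x, J.nA y, J.memA.2 trivial, J.memA.2 trivial, J.pair .a .a x y⟩
  · rintro ⟨x, y, hx, hy, hp⟩
    obtain ⟨x, -, rfl⟩ := J.elA hx
    obtain ⟨y, -, rfl⟩ := J.elA hy
    obtain rfl := (J.isPair_iff (s := .a) (t := .a)).1 hp
    exact J.mem'.2 trivial
  · obtain ⟨p, ⟨h1, h2, h3⟩, rfl⟩ := (J.mem _ _ _).1 h
    refine ⟨fun B hB => ?_, fun x hx => ?_, fun B C x hB hC hx hx' => ?_⟩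
    · obtain ⟨B, hB', rfl⟩ := J.elS hB
      obtain ⟨x, hx⟩ := h1 B hB'
      exact ⟨J.subA_iff.2 (subset_univ _), J.nA x, J.memA.2 hx⟩
    · obtain ⟨x, -, rfl⟩ := J.elA hx
      obtain ⟨B, hB, hx⟩ := h2 x
      exact ⟨J.sA B, J.memS.2 hB, J.memA.2 hx⟩
    · obtain ⟨B, hB', rfl⟩ := J.elS hB
      obtain ⟨C, hC', rfl⟩ := J.elS hC
      obtain ⟨x, hx1, rfl⟩ := J.elA hx
      rw [h3 B hB' C hC' x hx1 (J.memA.1 hx')]
  · obtain ⟨h1, h2, h3⟩ := h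
    obtain ⟨p, rfl⟩ := J.sub (.w .a) P fun B hB => by
      obtain ⟨B, -, rfl⟩ := J.subA (h1 B hB).1
      exact ⟨B, rfl⟩
    refine J.mem'.2 ⟨fun B hB => ?_, fun x => ?_, fun B hB C hC x hx hx' => ?_⟩
    · obtain ⟨x, hx⟩ := (h1 (J.sA B) (J.memS.2 hB)).2
      obtain ⟨x, hx, -⟩ := J.elA hx
      exact ⟨x, hx⟩
    · obtain ⟨B, hB, hx⟩ := h2 (J.nA x) (J.memA.2 trivial)
      obtain ⟨B, hB', rfl⟩ := J.elS hB
      exact ⟨B, hB', J.memA.1 hx⟩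
    · exact J.sA_inj (h3 _ _ (J.nA x) (J.memS.2 hB) (J.memS.2 hC) (J.memA.2 hx) (J.memA.2 hx'))
  · intro p hp
    obtain ⟨⟨⟨x, y⟩, z⟩, e, rfl⟩ := (J.mem _ _ _).1 hp
    obtain rfl : z = pa x y := e
    exact ⟨_, _, J.mem'.2 trivial, J.mem'.2 (pt_pa x y), J.pair (.p .a .a) (.w (.w .a)) (x, y) _⟩
  · intro z hz
    obtain ⟨⟨x, y⟩, -, rfl⟩ := (J.mem _ _ _).1 hz
    refine ⟨_, aF.2 ⟨x, y, rfl, rfl⟩, fun w hw => ?_⟩
    obtain ⟨x', y', e, rfl⟩ := aF.1 hw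
    obtain ⟨rfl, rfl⟩ := Prod.ext_iff.1 (J.inj (.p .a .a) e)
    rfl
  · intro P hP
    obtain ⟨p, hp, rfl⟩ := (J.mem _ _ _).1 hP
    obtain ⟨a, b, rfl⟩ := pa_surj hp
    exact ⟨_, J.mem'.2 trivial, aF.2 ⟨a, b, rfl, rfl⟩⟩

end Pool.Agent.Results.MP_e3c3cf_lc.SquareOntoPart
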